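import Pool.Agent.R264.HI.Assemble
import Pool.Agent.R264.HI.SI
import Pool.Agent.R264.HI.IS
import Pool.Agent.R264.HI.LOG
import Pool.Agent.R264.HI.LOW
import Pool.Agent.R264.HI.NUM

namespace Pool.Agent.Results.MP_dbfb19_an.CommonConstantBelowSqrtPi

open Pool.Agent.R264.HI

/-- The series inequality (S) and the integral inequality (I) hold for exactly the same constants
`C`, namely for `C ≥ C₀` with one real number `C₀`, and
`3/2 < 4 - 2√2 log(1+√2) ≤ C₀ < √π`; `Real.arsinh 1 = log (1 + √2)`. -/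
theorem result :
    ∃ C₀ : ℝ, 3 / 2 < 4 - 2 * √2 * Real.arsinh 1 ∧ 4 - 2 * √2 * Real.arsinh 1 ≤ C₀ ∧
      C₀ < √Real.pi ∧ (∀ C : ℝ, HS C ↔ C₀ ≤ C) ∧ (∀ C : ℝ, HI C ↔ C₀ ≤ C) := by
  obtain ⟨C₀, h1, h2, h3, h4⟩ := assemble t_SI t_IS t_LOG t_LOW
  exact ⟨C₀, t_NUM, h1, h2, h3, h4⟩

end Pool.Agent.Results.MP_dbfb19_an.CommonConstantBelowSqrtPi
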